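import Pool.Agent.H25.CFL.Targets

/-!
# MP_e37c09_lc: the cofinality law, the criterion at one singular cardinal
-/

open Ordinal Cardinal Order Set
open scoped ZFSet

universe u

namespace Pool.Agent.H25.CFL

open _root_.HD

/-- Below the successor of `g` in HOD there is only one cardinal of HOD which is at least `g`. -/
theorem sh_hs (x : Ordinal.{u}) : (SH x (hs x)).Countable := by
  refine (Set.countable_singleton x).mono fun τ hτ => ?_
  obtain ⟨h1, h2, h3⟩ := hτ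
  rcases h1.eq_or_lt with h | h
  · exact h.symm
  · exact absurd (Pool.Agent.H54.CL.onto_of_lt_hs (bot_le.trans_lt h) h2) (h3 x h)

/-- The criterion. -/
theorem crit (h : T_CFL.{u}) (δ : Ordinal.{u}) (hδ : Extendible δ) (h0 : 0 < δ)
    (g : Cardinal.{u}) (hg : ℵ₀ ≤ g) (hs1 : ¬ g.IsRegular) (hδg : δ < g.ord) :
    (CaseA δ ↔ (hs g.ord).cof ≠ ℵ₀ ∧ (hs g.ord).cof ≠ g.ord.cof) ∧
      (g.ord.cof = ℵ₀ → (CaseA δ ↔ ¬ SU g.ord (hs g.ord))) := by
  rcases h.2 δ hδ with ⟨hA, h1⟩ | ⟨hA, h1⟩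
  · obtain ⟨h2, h3⟩ := h1 g hg hs1 hδg
    have h4 : g < (hs g.ord).cof := by rw [h2]; exact lt_succ g
    refine ⟨iff_of_true hA ⟨(hg.trans_lt h4).ne', ?_⟩, fun _ => iff_of_true hA h3⟩
    refine (lt_of_le_of_lt ?_ h4).ne'
    have h5 := Ordinal.cof_le_card g.ord
    rwa [Cardinal.card_ord] at h5
  · obtain ⟨D, -, h3, h4⟩ := h1 0 h0
    have hDg : D.ord < g.ord := h3.trans hδg
    obtain ⟨h5, h6⟩ := h4.card g (Cardinal.ord_lt_ord.1 hDg)
    refine ⟨iff_of_false hA fun h7 => h6.elim h7.1 h7.2, fun h7 => iff_of_false hA fun h8 => ?_⟩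
    exact h8 (h4.col g.ord hDg ⟨h7, Or.inr h5⟩ (hs g.ord) (sh_hs _)).1

end Pool.Agent.H25.CFL
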