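import Pool.Agent.H25.CFL.Fin
import Pool.Agent.H25.CFL.Crit
import Pool.Agent.H57.HCL.BF
import Pool.Agent.H57.HCL.DL
import Pool.Agent.H57.HCL.S0
import Pool.Agent.H54.HCL.HCE
import Pool.Agent.H7.HCL.WN
import Pool.Agent.H7.HCL.LZ
import Pool.Agent.H4.HCL.KX
import Pool.Agent.H51.HCL.KV
import Pool.Agent.H25.HCL.KT
import Pool.Agent.H25.HCL.S1
import Pool.Agent.H60.HCL.U1
import Pool.Agent.H91.CFL.U2
import Pool.Agent.H91.CFL.L1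
import Pool.Agent.H91.CFL.TG
import Pool.Agent.H13.HCL.U3
import Pool.Agent.H46.CFL.LW
import Pool.Agent.H89.CFL.NA1
import Pool.Agent.H1.CFL.NB1
import Pool.Agent.H61.HCL.B1
import Pool.Agent.H40.HCL.S3
import Pool.Agent.H81.HCL.S4
import Pool.Agent.H95.HCL.FA1
import Pool.Agent.H25.HCL.B2
import Pool.Agent.H71.CFL.S2
import Pool.Agent.H71.CFL.CA1

/-!
# MP_e37c09_lc: the cofinality law, all rows
-/

open Ordinal Cardinal Order Set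

universe u

namespace Pool.Agent.H25.CFL

theorem aDL : T_DL.{u} := Pool.Agent.H57.HCL.pf_DL
theorem aBF : T_BF.{u} := Pool.Agent.H57.HCL.pf_BF
theorem aCX : T_CX.{u} := pf_CX
theorem aHCE : T_HCE.{u} := Pool.Agent.H54.HCL.pf_HCE aCX _root_.HD.All.en _root_.HD.All.ea
  _root_.HD.All.vh _root_.HD.All.db _root_.HD.All.ps aDL
theorem aWN : T_WN.{u} := Pool.Agent.H7.HCL.pf_WN _root_.HD.All.uv _root_.HD.All.ki
  _root_.HD.All.db _root_.HD.All.vh _root_.HD.All.da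
theorem aLZ : T_LZ.{u} := Pool.Agent.H7.HCL.LZ.pf_LZ aWN aBF aDL _root_.HD.All.da
  _root_.HD.All.va _root_.HD.All.vb
theorem aKX : T_KX.{u} := Pool.Agent.H4.HCL.pf_KX aWN _root_.HD.All.ki _root_.HD.All.da
  _root_.HD.All.va _root_.HD.All.vb _root_.HD.All.vh
theorem aKV : T_KV.{u} := Pool.Agent.H51.HCL.pf_KV aKX _root_.HD.All.va _root_.HD.All.vh
  _root_.HD.All.db
theorem aKT : T_KT.{u} := Pool.Agent.H25.HCL.pf_KT aKV aDL _root_.HD.All.bd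
theorem aU1 : T_U1.{u} := Pool.Agent.H60.HCL.pf_U1 aLZ _root_.HD.All.va
theorem aU2 : T_U2.{u} := Pool.Agent.H91.CFL.pf_U2 _root_.HD.All.vg _root_.HD.All.va
  _root_.HD.All.ci
theorem aU3 : T_U3.{u} := Pool.Agent.H13.HCL.pf_U3 aWN aDL _root_.HD.All.va _root_.HD.All.vc
theorem aL1 : T_L1.{u} := Pool.Agent.H91.CFL.pf_L1 aU1 aU2 aU3 aKT aKV aDL _root_.HD.All.va
theorem aLW : T_LW.{u} := Pool.Agent.H46.CFL.pf_LW aL1 aHCE
theorem aNA1 : T_NA1.{u} := Pool.Agent.H89.CFL.pf_NA1 _root_.HD.All.vg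
theorem aNB1 : T_NB1.{u} := Pool.Agent.H1.CFL.pf_NB1 aNA1
theorem aTG : T_TG.{u} := Pool.Agent.H91.CFL.pf_TG _root_.HD.All.kd _root_.HD.All.vc
theorem aRC1 : T_RC1.{u} := Pool.Agent.H25.HCL.pf_RC1
theorem aB1 : T_B1.{u} := Pool.Agent.H61.HCL.pf_B1 aLW aNB1
theorem aB2 : T_B2.{u} := Pool.Agent.H25.HCL.pf_B2 aB1 aTG aRC1
theorem aS0 : T_S0.{u} := Pool.Agent.H57.HCL.pf_S0
theorem aS1 : T_S1.{u} := Pool.Agent.H25.HCL.pf_S1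
theorem aS2 : T_S2.{u} := Pool.Agent.H71.CFL.pf_S2
theorem aS3 : T_S3.{u} := Pool.Agent.H40.HCL.pf_S3 aB1 aRC1
theorem aS4 : T_S4.{u} := Pool.Agent.H81.HCL.pf_S4 aS0 aS1 aS2 aS3 _root_.HD.All.srg
theorem aFA1 : T_FA1.{u} := Pool.Agent.H95.HCL.pf_FA1
theorem aCA1 : T_CA1.{u} := Pool.Agent.H71.CFL.pf_CA1

/-- The cofinality law. -/
theorem cfl : T_CFL.{u} := fin aLW aNA1 aTG aB1 aB2 aS3 aS4 aFA1 aCA1

theorem ext_pos {δ : Ordinal.{u}} (hδ : _root_.HD.Extendible δ) : 0 < δ := by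
  obtain ⟨η, -, θ, j, hj⟩ := _root_.HD.All.xa δ hδ 0
  obtain ⟨D, rfl, -, -, h⟩ := _root_.HD.All.xb δ η θ j hj
  simpa using (Cardinal.aleph0_pos.trans h)

/-- The cofinality law with the criterion. -/
theorem cfl2 :
    (∀ lam : Ordinal.{u}, _root_.HD.RegHOD lam → ℵ₀ < lam.cof → lam.cof < lam.card →
      ∃ th, Law lam.cof lam th) ∧
    ∀ δ : Ordinal.{u}, _root_.HD.Extendible δ →
      (∀ g : Cardinal.{u}, ℵ₀ ≤ g → ¬ g.IsRegular → δ < g.ord →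
        (_root_.HD.CaseA δ ↔ (_root_.HD.hs g.ord).cof ≠ ℵ₀ ∧ (_root_.HD.hs g.ord).cof ≠ g.ord.cof) ∧
        (g.ord.cof = ℵ₀ → (_root_.HD.CaseA δ ↔ ¬ SU g.ord (_root_.HD.hs g.ord)))) ∧
      ((_root_.HD.CaseA δ ∧ ∀ g : Cardinal.{u}, ℵ₀ ≤ g → ¬ g.IsRegular → δ < g.ord →
        (_root_.HD.hs g.ord).cof = succ g ∧ ¬ SU g.ord (_root_.HD.hs g.ord)) ∨
      (¬ _root_.HD.CaseA δ ∧ ∀ l < δ, ∃ D : Cardinal.{u}, l < D.ord ∧ D.ord < δ ∧ LawB D)) :=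
  ⟨cfl.1, fun δ hδ => ⟨fun g h1 h2 h3 => crit cfl δ hδ (ext_pos hδ) g h1 h2 h3, cfl.2 δ hδ⟩⟩

end Pool.Agent.H25.CFL
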