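import Pool.Agent.H7.HD.Targets11
import Pool.Agent.H54.CL.Cod

/-!
# MP_e37c09_lc: the cofinality law
-/

open Ordinal Cardinal Order Set
open scoped ZFSet

universe u

namespace Pool.Agent.H25.CFL

open _root_.HD

/-! ## Statement-level definitions -/

/-- The situation of the cofinality law: `th` is the supremum of the ordinals below `lam` which are
regular in HOD and of cofinality less than the cofinality of `lam`. -/
structure Law (N : Cardinal.{u}) (lam th : Ordinal.{u}) : Prop where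
  le : th ≤ lam
  cof : th.cof = lam.cof
  unb : ∀ M : Cardinal.{u}, M.IsRegular → M < lam.cof → M < N → ∀ y < th,
    ∃ a, y < a ∧ a < th ∧ RegHOD a ∧ a.cof = M
  top : ∀ a, th ≤ a → a < lam → RegHOD a → lam.cof ≤ a.cof
  cov : ∀ A : Set Ordinal.{u}, A ⊆ Iio lam → (∃ τ : Ordinal.{u}, τ.card < lam.cof ∧
    ∃ e : Ordinal.{u} → Ordinal.{u}, ∀ a ∈ A, ∃ i < τ, e i = a) →
    ∃ P ∈ PkHOD th lam, ∀ a ∈ A, a.toZFSet ∈ P

/-- The ordinals which are regular in HOD and of cofinality `ω` are unbounded in `g`. -/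
def TU (g : Ordinal.{u}) : Prop := ∀ y < g, ∃ t, y < t ∧ t < g ∧ RegHOD t ∧ t.cof = ℵ₀

/-- `γ` is of cofinality `ω`, and it is regular in HOD or a limit of ordinals which are regular in
HOD and of cofinality `ω`. -/
def Om (γ : Ordinal.{u}) : Prop := γ.cof = ℵ₀ ∧ (RegHOD γ ∨ TU γ)

/-- `lam` is the union of countably many sets in HOD with fewer than `γ` elements in HOD. -/
def SU (γ lam : Ordinal.{u}) : Prop := ∃ x : ℕ → ZFSet.{u}, (∀ k, x k ∈ PkHOD γ lam) ∧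
  ∀ b < lam, ∃ k, b.toZFSet ∈ x k

/-- `D` is an open dense subset of the partial order `P`, whose order is the set of pairs `R`. -/
structure Opn (P R D : ZFSet.{u}) : Prop where
  sub : D ⊆ P
  den : ∀ p ∈ P, ∃ d ∈ D, ZFSet.pair d p ∈ R
  opn : ∀ d ∈ D, ∀ p ∈ P, ZFSet.pair p d ∈ R → p ∈ D

/-- `P` is in HOD a partial order such that in HOD the intersection of fewer than `γ` open dense
subsets is dense. -/
structure Dis (γ : Ordinal.{u}) (P R : ZFSet.{u}) : Prop where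
  hP : HOD P
  hR : HOD R
  refl : ∀ p ∈ P, ZFSet.pair p p ∈ R
  trans : ∀ p q r, ZFSet.pair p q ∈ R → ZFSet.pair q r ∈ R → ZFSet.pair p r ∈ R
  sub : ∀ p q, ZFSet.pair p q ∈ R → p ∈ P ∧ q ∈ P
  dis : ∀ τ < γ, ∀ f y, HOD f → ZFSet.IsFunc τ.toZFSet y f → (∀ D ∈ y, Opn P R D) →
    ∀ p ∈ P, ∃ q ∈ P, ZFSet.pair q p ∈ R ∧ ∀ a D, ZFSet.pair a D ∈ f → q ∈ D

/-- For every partial order as in `Dis` and all open dense sets `D b`, `b < lam`, given by a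
function in HOD, there is a filter (in V) which meets all of them. -/
def FA (γ lam : Ordinal.{u}) : Prop := ∀ P R : ZFSet.{u}, Dis γ P R → ∀ f y, HOD f →
  ZFSet.IsFunc lam.toZFSet y f → (∀ D ∈ y, Opn P R D) → ∀ p ∈ P, ∃ G : Set ZFSet.{u},
    p ∈ G ∧ (∀ q ∈ G, q ∈ P) ∧ (∀ q ∈ G, ∀ r, ZFSet.pair q r ∈ R → r ∈ G) ∧
    (∀ q ∈ G, ∀ r ∈ G, ∃ s ∈ G, ZFSet.pair s q ∈ R ∧ ZFSet.pair s r ∈ R) ∧
    ∀ a D, ZFSet.pair a D ∈ f → ∃ q ∈ G, q ∈ D

/-- The cofinality law above `D`. -/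
structure LawB (D : Cardinal.{u}) : Prop where
  reg : ∀ lam : Ordinal.{u}, RegHOD lam → D.ord < lam → lam.cof = ℵ₀ ∨ ∃ th, Law D lam th ∧
    ∀ a, th ≤ a → a ≤ lam → D.ord < a → RegHOD a → a.cof = lam.cof
  card : ∀ g : Cardinal.{u}, D < g → TU g.ord ∧
    ((hs g.ord).cof = ℵ₀ ∨ (hs g.ord).cof = g.ord.cof)
  col : ∀ γ : Ordinal.{u}, D.ord < γ → Om γ → ∀ lam, (SH γ lam).Countable →
    SU γ lam ∧ FA γ lam ∧ (γ ≤ lam → RegHOD lam → lam.cof = ℵ₀)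

/-! ## Modules -/

/-- BF. Functions which are definable are bounded below an ordinal which is regular in HOD. -/
def T_BF : Prop := ∀ lam : Ordinal.{u}, RegHOD lam → ∀ z < lam, ∀ g : Ordinal.{u} → Ordinal.{u},
  (DR fun a b => b = g a) → (∀ i < z, g i < lam) → ∃ b < lam, ∀ i < z, g i < b

/-- CX. The cofinality in HOD. -/
def T_CX : Prop := ∀ en : Ordinal.{u} → ZFSet.{u}, EN en → ∀ β : Ordinal.{u}, IsSuccLimit β →
  ∃ e τ : Ordinal.{u}, τ ≤ β ∧ RegHOD τ ∧ τ.cof = β.cof ∧ E en e ⊆ Iio β ∧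
    (∀ b < β, ∃ a ∈ E en e, b ≤ a) ∧ (∀ z ∈ E en e, ∃ a < τ, nth (E en e) a z) ∧
    ∀ a < τ, ∃ z, nth (E en e) a z

/-- For limit ordinals `x`, `h x` is the cofinality of `x` in HOD, and `c x` is a strictly
increasing cofinal function from `h x` to `x`. -/
structure HC (h : Ordinal.{u} → Ordinal.{u}) (c : Ordinal.{u} → Ordinal.{u} → Ordinal.{u}) :
    Prop where
  dh : DR fun x y => y = h x
  dc : DO fun w => w 2 = c (w 0) (w 1)
  le : ∀ x, IsSuccLimit x → h x ≤ x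
  reg : ∀ x, IsSuccLimit x → RegHOD (h x)
  cof : ∀ x, IsSuccLimit x → (h x).cof = x.cof
  lt : ∀ x, IsSuccLimit x → ∀ i < h x, c x i < x
  mono : ∀ x, IsSuccLimit x → ∀ i j, i < j → j < h x → c x i < c x j
  unb : ∀ x, IsSuccLimit x → ∀ y < x, ∃ i < h x, y ≤ c x i

/-- HCE. Existence of these functions. -/
def T_HCE : Prop := ∃ (h : Ordinal.{u} → Ordinal.{u}) (c : Ordinal.{u} → Ordinal.{u} → Ordinal.{u}),
  HC h c

/-- DL. The limit ordinals are a definable class. -/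
def T_DL : Prop := DS {x : Ordinal.{u} | IsSuccLimit x}

/-- The situation. -/
structure St (M : Cardinal.{u}) (lam : Ordinal.{u}) (h : Ordinal.{u} → Ordinal.{u})
    (c : Ordinal.{u} → Ordinal.{u} → Ordinal.{u}) : Prop where
  hc : HC h c
  mreg : M.IsRegular
  reg : RegHOD lam
  mlt : M < lam.cof
  ns : NS lam.card.ord M.ord lam

/-- WN. Weak normality. -/
def T_WN : Prop := ∀ (M : Cardinal.{u}) (lam : Ordinal.{u}), M.IsRegular → RegHOD lam →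
  M < lam.cof → NS lam.card.ord M.ord lam → ∀ (S : Set Ordinal.{u}) (f : Ordinal.{u} → Ordinal.{u}),
  DS S → (DR fun a b => b = f a) → (∀ x ∈ S, x < lam → 0 < x → f x < x) →
    ∃ b < lam, ¬ Pos M.ord lam {x | x ∈ S ∧ b ≤ f x}

/-- LZ. The cofinality in HOD is not constant on a positive set. -/
def T_LZ : Prop := ∀ M lam h c, St.{u} M lam h c → ∀ z < lam,
  ¬ Pos M.ord lam {x | IsSuccLimit x ∧ h x = z}

/-- KX. The argument of Ketonen for positive sets. -/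
def T_KX : Prop := ∀ M lam h c, St.{u} M lam h c → ∀ S : Set Ordinal.{u}, DS S →
  (∀ x ∈ S, IsSuccLimit x) → ∃ X : Set Ordinal.{u}, DS X ∧ X ⊆ Iio lam ∧
    (∀ i < lam, ∃ z, nth X i z) ∧ ∀ i z z', nth X i z → nth X (succ i) z' →
      ¬ Pos M.ord lam {x | x ∈ S ∧ ∀ j < h x, ¬ (z ≤ c x j ∧ c x j < z')}

/-- KV. Covering. -/
def T_KV : Prop := ∀ M lam h c, St.{u} M lam h c → ∀ S : Set Ordinal.{u}, DS S →
  (∀ x ∈ S, IsSuccLimit x) → Pos M.ord lam S → ∀ A : Set Ordinal.{u}, A ⊆ Iio lam →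
  (∃ τ : Ordinal.{u}, τ.card < lam.cof ∧ ∃ e : Ordinal.{u} → Ordinal.{u},
    ∀ a ∈ A, ∃ i < τ, e i = a) →
    ∃ x ∈ S, x < lam ∧ ∃ P ∈ PkHOD (succ (h x)) lam, ∀ a ∈ A, a.toZFSet ∈ P

/-- KT. Cofinalities above `u`. -/
def T_KT : Prop := ∀ M lam h c, St.{u} M lam h c → ∀ v < lam,
  Pos M.ord lam {x | IsSuccLimit x ∧ h x ≤ v} → ∀ a, v < a → a < lam → RegHOD a →
    lam.cof ≤ a.cof

/-- UA1. The least bound, first part. -/
def T_U1 : Prop := ∀ M lam h c, St.{u} M lam h c → ∀ v < lam,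
  (∀ u < v, ¬ Pos M.ord lam {x | IsSuccLimit x ∧ h x ≤ u}) →
  Pos M.ord lam {x | IsSuccLimit x ∧ h x ≤ v} →
    Pos M.ord lam {x | IsSuccLimit x ∧ h x < v} ∧ lam.cof ≤ v.cof

/-- U2. The least bound, second part. -/
def T_U2 : Prop := ∀ M lam h c, St.{u} M lam h c → ∀ v < lam,
  (∀ u < v, ¬ Pos M.ord lam {x | IsSuccLimit x ∧ h x ≤ u}) →
  Pos M.ord lam {x | IsSuccLimit x ∧ h x < v} → v.cof ≤ lam.cof

/-- U3. There is no least bound. -/
def T_U3 : Prop := ∀ M lam h c, St.{u} M lam h c →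
  (∀ u < lam, ¬ Pos M.ord lam {x | IsSuccLimit x ∧ h x ≤ u}) →
    ∀ y < lam, ∃ a, y < a ∧ a < lam ∧ RegHOD a ∧ a.cof = M

/-- The law for one cofinality. -/
structure Law1 (M : Cardinal.{u}) (lam th : Ordinal.{u}) : Prop where
  le : th ≤ lam
  cof : th.cof = lam.cof
  unb : ∀ y < th, ∃ a, y < a ∧ a < th ∧ RegHOD a ∧ a.cof = M
  top : ∀ a, th ≤ a → a < lam → RegHOD a → lam.cof ≤ a.cof
  cov : ∀ A : Set Ordinal.{u}, A ⊆ Iio lam → (∃ τ : Ordinal.{u}, τ.card < lam.cof ∧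
    ∃ e : Ordinal.{u} → Ordinal.{u}, ∀ a ∈ A, ∃ i < τ, e i = a) →
    ∃ P ∈ PkHOD th lam, ∀ a ∈ A, a.toZFSet ∈ P

/-- L1. -/
def T_L1 : Prop := ∀ M lam h c, St.{u} M lam h c → ∃ th, Law1 M lam th

/-- LW. -/
def T_LW : Prop := ∀ (N : Cardinal.{u}) (lam : Ordinal.{u}), RegHOD lam → ℵ₀ < lam.cof → ℵ₀ < N →
  (∀ M : Cardinal.{u}, M.IsRegular → M < lam.cof → M < N → NS lam.card.ord M.ord lam) →
    ∃ th, Law N lam th

/-- NA. -/
def T_NA1 : Prop := ∀ (M : Cardinal.{u}) (lam : Ordinal.{u}), IsSuccLimit lam →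
  lam.cof < lam.card → NS lam.card.ord M.ord lam

/-- NB. -/
def T_NB1 : Prop := ∀ (D M : Cardinal.{u}) (lam : Ordinal.{u}), GoodN D → M.IsRegular → M < D →
  IsSuccLimit lam → D.ord < lam → NS lam.card.ord M.ord lam

/-- TG. -/
def T_TG : Prop := ∀ D g : Cardinal.{u}, GoodN D → D < g → TU g.ord

/-- RC1. Regular ordinals of HOD are cardinals of HOD. -/
def T_RC1 : Prop := ∀ a : Ordinal.{u}, RegHOD a → CardHOD a

/-- B1. -/
def T_B1 : Prop := ∀ (D : Cardinal.{u}) (lam : Ordinal.{u}), GoodN D → RegHOD lam → D.ord < lam →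
  lam.cof = ℵ₀ ∨ ∃ th, Law D lam th ∧
    ∀ a, th ≤ a → a ≤ lam → D.ord < a → RegHOD a → a.cof = lam.cof

/-- B2. -/
def T_B2 : Prop := ∀ D g : Cardinal.{u}, GoodN D → D < g →
  (hs g.ord).cof = ℵ₀ ∨ (hs g.ord).cof = g.ord.cof

/-- S0. -/
def T_S0 : Prop := ∀ γ lam : Ordinal.{u}, γ.cof = ℵ₀ → lam ≤ γ → SU γ lam

/-- S1. -/
def T_S1 : Prop := ∀ γ lam lam' : Ordinal.{u}, OntoHOD lam' lam → SU γ lam' → SU γ lam

/-- S2. -/
def T_S2 : Prop := ∀ γ lam : Ordinal.{u}, lam.cof = ℵ₀ → (∀ b < lam, SU γ b) → SU γ lam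

/-- S3. -/
def T_S3 : Prop := ∀ (D : Cardinal.{u}) (γ lam : Ordinal.{u}), GoodN D → D.ord < γ → Om γ →
  γ ≤ lam → RegHOD lam → (SH γ lam).Countable → lam.cof = ℵ₀

/-- S4. -/
def T_S4 : Prop := ∀ (D : Cardinal.{u}) (γ lam : Ordinal.{u}), GoodN D → D.ord < γ → Om γ →
  (SH γ lam).Countable → SU γ lam

/-- FA. -/
def T_FA1 : Prop := ∀ γ lam : Ordinal.{u}, SU γ lam → FA γ lam

/-- CA. The first case. -/
def T_CA1 : Prop := ∀ δ : Ordinal.{u}, CaseA δ → ∀ g : Cardinal.{u}, ℵ₀ ≤ g → ¬ g.IsRegular →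
  δ < g.ord → (hs g.ord).cof = succ g ∧ ¬ SU g.ord (hs g.ord)

/-- The theorem. -/
def T_CFL : Prop := (∀ lam : Ordinal.{u}, RegHOD lam → ℵ₀ < lam.cof → lam.cof < lam.card →
    ∃ th, Law lam.cof lam th) ∧
  ∀ δ : Ordinal.{u}, Extendible δ →
    (CaseA δ ∧ ∀ g : Cardinal.{u}, ℵ₀ ≤ g → ¬ g.IsRegular → δ < g.ord →
      (hs g.ord).cof = succ g ∧ ¬ SU g.ord (hs g.ord)) ∨
    (¬ CaseA δ ∧ ∀ l < δ, ∃ D : Cardinal.{u}, l < D.ord ∧ D.ord < δ ∧ LawB D)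

end Pool.Agent.H25.CFL
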