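import Pool.Agent.H7.HD.Fin2
import Pool.Agent.H7.HDA.All11
import Pool.Agent.H25.CFL.CX

/-!
# MP_e37c09_lc: the cofinality law, assembly
-/

open Ordinal Cardinal Order Set
open scoped ZFSet

universe u

namespace Pool.Agent.H25.CFL

open _root_.HD

/-- The law above `D` from the modules. -/
theorem lawB (hTG : T_TG.{u}) (hB1 : T_B1.{u}) (hB2 : T_B2.{u}) (hS3 : T_S3.{u})
    (hS4 : T_S4.{u}) (hFA : T_FA1.{u}) (D : Cardinal.{u}) (hD : GoodN D) : LawB D where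
  reg := fun lam h1 h2 => hB1 D lam hD h1 h2
  card := fun g hg => ⟨hTG D g hD hg, hB2 D g hD hg⟩
  col := by
    intro γ hγ hO lam hc
    have h := hS4 D γ lam hD hγ hO hc
    exact ⟨h, hFA γ lam h, fun h1 h2 => hS3 D γ lam hD hγ hO h1 h2 hc⟩

/-- FIN. -/
theorem fin (hLW : T_LW.{u}) (hNA : T_NA1.{u}) (hTG : T_TG.{u}) (hB1 : T_B1.{u})
    (hB2 : T_B2.{u}) (hS3 : T_S3.{u}) (hS4 : T_S4.{u}) (hFA : T_FA1.{u}) (hCA : T_CA1.{u}) :
    T_CFL.{u} := by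
  refine ⟨?_, ?_⟩
  · intro lam hl h0 h1
    exact hLW lam.cof lam hl h0 h0 fun M _ _ _ => hNA M lam hl.1 h1
  · intro δ hδ
    by_cases hA : CaseA δ
    · exact Or.inl ⟨hA, hCA δ hA⟩
    · refine Or.inr ⟨hA, fun l hl => ?_⟩
      obtain ⟨D, h1, h2, h3⟩ := asm_refl All.xa All.xb All.yl All.ra hδ hA l hl
      exact ⟨D, h2, h1, lawB hTG hB1 hB2 hS3 hS4 hFA D h3⟩

end Pool.Agent.H25.CFL
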